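import Pool.Agent.Lib.MP_b2e5b9_co.Fat.Final

open HyperplaneTransversals

/-- For every `d ≥ 2` there is a constant `c` such that for all `n ≥ d` and every
`(d - 2)`-separated family of `n` compact convex sets with nonempty interior in `ℝᵈ` (no strict
convexity assumed) the space of hyperplane transversals has at most `c * n ^ (d - 1)` topological
faces. -/
theorem Pool.Agent.Results.MP_b2e5b9_co.ConvexBodiesBound.result (d : ℕ) (hd : 2 ≤ d) :
    ∃ c : ℕ, ∀ n : ℕ, d ≤ n → ∀ A : Fin n → Set (E d),
      (∀ i, IsCompact (A i) ∧ Convex ℝ (A i) ∧ (interior (A i)).Nonempty) →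
      Separated (d - 2) A → ∀ proper : Prop, (faces proper A).encard ≤ (c * n ^ (d - 1) : ℕ) := by
  obtain ⟨m, rfl⟩ : ∃ m, d = m + 2 := ⟨d - 2, by omega⟩
  refine ⟨CubeSys.K m, fun n hn A hA hsep proper => ?_⟩
  have hF : Fam A := ⟨fun i => (hA i).1, fun i => (hA i).2.1, fun i => (hA i).2.2, hsep⟩
  exact convex_bodies_bound hF hn proper
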