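import Pool.Agent.Lib.MP_b2e5b9_co_D.Dim2
import Pool.Agent.Lib.MP_b2e5b9_co_D.Dim3
import Pool.Agent.Lib.MP_b2e5b9_co_D.NInf

open HyperplaneTransversals

/-- The complete answer to the question. For every dimension `d ≥ 2` and for both readings of
`supports` (hyperplanes containing a member support it: `proper := False`; they do not:
`proper := True`): the `O(n ^ (d - 1))` bound for the number of topological faces of the space of
hyperplane transversals of `(d - 2)`-separated families of `n ≥ d` compact convex sets in `ℝᵈ`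
holds if and only if `d ≤ 3`. Moreover, for `d ≥ 4` and every `n ≥ d` one `(d - 2)`-separated
family of `n` nonempty compact convex sets has infinitely many topological faces, in both
readings. -/
theorem Pool.Agent.Results.MP_b2e5b9_co.Dichotomy.result (d : ℕ) (hd : 2 ≤ d) :
    (∀ proper : Prop,
      (∃ c : ℕ, ∀ n : ℕ, d ≤ n → ∀ A : Fin n → Set (E d),
        (∀ i, IsCompact (A i) ∧ Convex ℝ (A i)) → Separated (d - 2) A →
        (faces proper A).encard ≤ (c * n ^ (d - 1) : ℕ)) ↔ d ≤ 3) ∧
    (4 ≤ d → ∀ n : ℕ, d ≤ n → ∃ A : Fin n → Set (E d),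
      (∀ i, (A i).Nonempty ∧ IsCompact (A i) ∧ Convex ℝ (A i)) ∧
      Separated (d - 2) A ∧ ∀ proper : Prop, (faces proper A).Infinite) := by
  refine ⟨fun proper => ⟨fun ⟨c, hc⟩ => ?_, fun h3 => ?_⟩, fun h4 n hn =>
    infinite_faces d n h4 (by omega)⟩
  · by_contra h
    obtain ⟨A, hA, hsep, hinf⟩ := infinite_faces d d (by omega) (by omega)
    have h1 := hc d le_rfl A (fun i => (hA i).2) hsep
    rw [(hinf proper).encard_eq] at h1
    exact absurd (top_le_iff.1 h1) (ENat.natCast_ne_top _)
  · refine ⟨20000, fun n hn A hA hsep => ?_⟩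
    by_cases hne : ∀ i, (A i).Nonempty
    · obtain rfl | rfl : d = 2 ∨ d = 3 := by omega
      · have hF : CFam (m := 0) A := ⟨fun i => (hA i).1, fun i => (hA i).2, hne, hsep⟩
        refine (dim_two hF hn proper).trans ?_
        have h2 : 1000 * n ≤ 20000 * n ^ (2 - 1) := by
          norm_num
          omega
        exact_mod_cast h2
      · have hF : CFam (m := 1) A := ⟨fun i => (hA i).1, fun i => (hA i).2, hne, hsep⟩
        exact dim_three hF hn proper
    · obtain ⟨i, hi⟩ := not_forall.1 hne
      have h0 : faces proper A = ∅ := by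
        refine Set.eq_empty_iff_forall_notMem.2 ?_
        rintro F ⟨S, H, hH, -⟩
        obtain ⟨x, -, hx⟩ := hH.1 i
        exact hi ⟨x, hx⟩
      rw [h0, Set.encard_empty]
      exact bot_le
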